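import Pool.Agent.Run7.h670.MY.StmD

/-!
# Piece D_KK of project MY: the integral of `exp (-|y|²) |y|⁻²`
-/

set_option autoImplicit false

open MeasureTheory Set
open scoped ENNReal RealInnerProductSpace

namespace Run7.h19.MY

open Pool.Agent.Run7.h670.MY

theorem t_D_KK : D_KK := by
  intro n hn
  have hn3 : (3 : ℝ) ≤ (n : ℝ) := by exact_mod_cast hn
  haveI : Nonempty (Fin n) := ⟨⟨0, by omega⟩⟩
  haveI : Nontrivial (V n) := inferInstance
  set f : ℝ → ℝ := fun r => Real.exp (-r ^ 2) * (r ^ 2)⁻¹ with hf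
  have hfr : Module.finrank ℝ (V n) = n := by simp
  have hcongr : ∀ y ∈ Ioi (0 : ℝ), y ^ (Module.finrank ℝ (V n) - 1) • f y =
      y ^ ((n : ℝ) - 3) * Real.exp (-y ^ (2 : ℝ)) := by
    intro y hy
    have hy0 : (0 : ℝ) < y := hy
    rw [hfr, hf, smul_eq_mul]
    simp only
    have e1 : y ^ (2 : ℝ) = y ^ 2 := by
      rw [← Real.rpow_natCast y 2]; norm_num
    have e2 : y ^ ((n : ℝ) - 3) = y ^ (n - 3) := by
      rw [← Real.rpow_natCast y (n - 3)]
      congr 1
      rw [Nat.cast_sub hn]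
      norm_num
    have e3 : y ^ (n - 1) = y ^ (n - 3) * y ^ 2 := by
      rw [← pow_add]
      congr 1
      omega
    rw [e1, e2, e3]
    field_simp
  have hint0 : IntegrableOn (fun y : ℝ => y ^ ((n : ℝ) - 3) * Real.exp (-y ^ (2 : ℝ)))
      (Ioi 0) := by
    have := integrableOn_rpow_mul_exp_neg_rpow (p := (2 : ℝ)) (s := (n : ℝ) - 3)
      (by linarith) (by norm_num)
    exact this
  have hint : IntegrableOn (fun y : ℝ => y ^ (Module.finrank ℝ (V n) - 1) • f y) (Ioi 0) :=
    (integrableOn_congr_fun hcongr measurableSet_Ioi).2 hint0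
  have hI : Integrable (fun y : V n => f ‖y‖) :=
    (integrable_fun_norm_addHaar (volume : Measure (V n))).2 hint
  have hnn : ∀ y : V n, 0 ≤ f ‖y‖ := fun y =>
    mul_nonneg (Real.exp_pos _).le (inv_nonneg.2 (sq_nonneg _))
  have h1 : KK n = ENNReal.ofReal (∫ y : V n, f ‖y‖) := by
    rw [ofReal_integral_eq_lintegral_ofReal hI (Filter.Eventually.of_forall hnn)]
    rfl
  have h2 : ∫ y : V n, f ‖y‖ = 2 * √Real.pi ^ n / ((n : ℝ) - 2) := by
    rw [integral_fun_norm_addHaar (volume : Measure (V n)) f,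
      setIntegral_congr_fun measurableSet_Ioi hcongr,
      integral_rpow_mul_exp_neg_rpow (by norm_num) (by linarith)]
    have h3 : (volume : Measure (V n)).real (Metric.ball 0 1) =
        √Real.pi ^ n / Real.Gamma ((n : ℝ) / 2 + 1) := by
      rw [Measure.real, EuclideanSpace.volume_ball]
      simp only [ENNReal.ofReal_one, one_pow, one_mul, Fintype.card_fin]
      rw [ENNReal.toReal_ofReal]
      have : 0 < Real.Gamma ((n : ℝ) / 2 + 1) := Real.Gamma_pos_of_pos (by positivity)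
      positivity
    rw [h3, hfr]
    have h4 : ((n : ℝ) - 3 + 1) / 2 = (n : ℝ) / 2 - 1 := by ring
    rw [h4]
    have hg : 0 < Real.Gamma ((n : ℝ) / 2 - 1) := Real.Gamma_pos_of_pos (by linarith)
    have h5 : Real.Gamma ((n : ℝ) / 2 + 1) =
        (n : ℝ) / 2 * (((n : ℝ) / 2 - 1) * Real.Gamma ((n : ℝ) / 2 - 1)) := by
      rw [Real.Gamma_add_one (by positivity)]
      congr 1
      have h6 := Real.Gamma_add_one (s := (n : ℝ) / 2 - 1) (by linarith)
      rw [sub_add_cancel] at h6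
      exact h6
    rw [h5, smul_eq_mul, nsmul_eq_mul]
    have h7 : (n : ℝ) / 2 - 1 ≠ 0 := by linarith
    have h8 : (n : ℝ) - 2 ≠ 0 := by linarith
    have h9 : (n : ℝ) ≠ 0 := by linarith
    have h10 : (n : ℝ) / 2 - 1 = ((n : ℝ) - 2) / 2 := by ring
    rw [h10] at hg ⊢
    field_simp
  rw [h1, h2]

end Run7.h19.MY
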