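import Pool.Agent.Run7.h670.MY.StmD

/-!
# Piece D_NUM of project MY: the constants
-/

set_option autoImplicit false

open MeasureTheory Set
open scoped ENNReal RealInnerProductSpace

namespace Run7.h19.MY

open Pool.Agent.Run7.h670.MY

/-- the values of the Gamma function in the base cases -/
theorem gam52 : Real.Gamma (((3 : ℕ) : ℝ) / 2 + 1) = 3 / 4 * √Real.pi := by
  rw [Real.Gamma_add_one (by norm_num)]
  have : (((3 : ℕ) : ℝ) / 2) = 1 / 2 + 1 := by norm_num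
  rw [this, Real.Gamma_add_one (by norm_num), Real.Gamma_one_half_eq]
  ring

theorem gam72 : Real.Gamma (((5 : ℕ) : ℝ) / 2 + 1) = 15 / 8 * √Real.pi := by
  rw [Real.Gamma_add_one (by norm_num)]
  have : (((5 : ℕ) : ℝ) / 2) = ((3 : ℕ) : ℝ) / 2 + 1 := by norm_num
  rw [this, gam52]
  push_cast
  ring

theorem gam92 : Real.Gamma (((7 : ℕ) : ℝ) / 2 + 1) = 105 / 16 * √Real.pi := by
  rw [Real.Gamma_add_one (by norm_num)]
  have : (((7 : ℕ) : ℝ) / 2) = ((5 : ℕ) : ℝ) / 2 + 1 := by norm_num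
  rw [this, gam72]
  push_cast
  ring

theorem gam4 : Real.Gamma (((4 : ℕ) : ℝ) / 2 + 1) = 2 := by
  have : (((4 : ℕ) : ℝ) / 2 + 1) = ((2 : ℕ) : ℝ) + 1 := by norm_num
  rw [this, Real.Gamma_nat_eq_factorial]
  norm_num

theorem gam6 : Real.Gamma (((6 : ℕ) : ℝ) / 2 + 1) = 6 := by
  have : (((6 : ℕ) : ℝ) / 2 + 1) = ((3 : ℕ) : ℝ) + 1 := by norm_num
  rw [this, Real.Gamma_nat_eq_factorial]
  norm_num [Nat.factorial]

/-- the inequality with natural powers -/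
def QQ (d : ℕ) : Prop := (17 * (d : ℝ) / (8 * Real.pi)) ^ d ≤ 4 * Real.Gamma ((d : ℝ) / 2 + 1) ^ 4

theorem sqrt4 : √Real.pi ^ 4 = Real.pi ^ 2 := by
  have h := Real.sq_sqrt Real.pi_pos.le
  calc √Real.pi ^ 4 = (√Real.pi ^ 2) ^ 2 := by ring
    _ = Real.pi ^ 2 := by rw [h]

theorem q3 : QQ 3 := by
  unfold QQ
  rw [gam52, mul_pow, sqrt4, div_pow, div_le_iff₀ (by positivity)]
  have hp : (3.14 : ℝ) < Real.pi := Real.pi_gt_d2
  have h5 : (3.14 : ℝ) ^ 5 ≤ Real.pi ^ 5 := pow_le_pow_left₀ (by norm_num) hp.le 5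
  push_cast
  have e : 4 * ((3 / 4 : ℝ) ^ 4 * Real.pi ^ 2) * (8 * Real.pi) ^ 3 = 648 * Real.pi ^ 5 := by ring
  rw [e]
  norm_num at h5 ⊢
  linarith

theorem q4 : QQ 4 := by
  unfold QQ
  rw [gam4, div_pow, div_le_iff₀ (by positivity)]
  have hp : (3.14 : ℝ) < Real.pi := Real.pi_gt_d2
  have h5 : (3.14 : ℝ) ^ 4 ≤ Real.pi ^ 4 := pow_le_pow_left₀ (by norm_num) hp.le 4
  push_cast
  have e : 4 * (2 : ℝ) ^ 4 * (8 * Real.pi) ^ 4 = 262144 * Real.pi ^ 4 := by ring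
  rw [e]
  norm_num at h5 ⊢
  linarith

theorem q5 : QQ 5 := by
  unfold QQ
  rw [gam72, mul_pow, sqrt4, div_pow, div_le_iff₀ (by positivity)]
  have hp : (3.14 : ℝ) < Real.pi := Real.pi_gt_d2
  have h5 : (3.14 : ℝ) ^ 7 ≤ Real.pi ^ 7 := pow_le_pow_left₀ (by norm_num) hp.le 7
  push_cast
  have e : 4 * ((15 / 8 : ℝ) ^ 4 * Real.pi ^ 2) * (8 * Real.pi) ^ 5 = 1620000 * Real.pi ^ 7 := by
    ring
  rw [e]
  norm_num at h5 ⊢
  linarith

theorem q6 : QQ 6 := by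
  unfold QQ
  rw [gam6, div_pow, div_le_iff₀ (by positivity)]
  have hp : (3.14 : ℝ) < Real.pi := Real.pi_gt_d2
  have h5 : (3.14 : ℝ) ^ 6 ≤ Real.pi ^ 6 := pow_le_pow_left₀ (by norm_num) hp.le 6
  push_cast
  have e : 4 * (6 : ℝ) ^ 4 * (8 * Real.pi) ^ 6 = 5184 * 262144 * Real.pi ^ 6 := by ring
  rw [e]
  norm_num at h5 ⊢
  linarith

theorem q7 : QQ 7 := by
  unfold QQ
  rw [gam92, mul_pow, sqrt4, div_pow, div_le_iff₀ (by positivity)]
  have hp : (3.14 : ℝ) < Real.pi := Real.pi_gt_d2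
  have h5 : (3.14 : ℝ) ^ 9 ≤ Real.pi ^ 9 := pow_le_pow_left₀ (by norm_num) hp.le 9
  push_cast
  have e : 4 * ((105 / 16 : ℝ) ^ 4 * Real.pi ^ 2) * (8 * Real.pi) ^ 7 =
      4 * 105 ^ 4 * 32 * Real.pi ^ 9 := by
    ring
  rw [e]
  norm_num at h5 ⊢
  linarith

theorem qstep (d : ℕ) (hd : 6 ≤ d) (h : QQ d) : QQ (d + 2) := by
  unfold QQ at h ⊢
  have hd6 : (6 : ℝ) ≤ (d : ℝ) := by exact_mod_cast hd
  have hd0 : (0 : ℝ) < d := by linarith
  have hpi := Real.pi_pos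
  have hG : Real.Gamma (((d + 2 : ℕ) : ℝ) / 2 + 1) =
      (((d : ℝ) + 2) / 2) * Real.Gamma ((d : ℝ) / 2 + 1) := by
    have e : (((d + 2 : ℕ) : ℝ) / 2 + 1) = ((d : ℝ) / 2 + 1) + 1 := by push_cast; ring
    rw [e, Real.Gamma_add_one (by positivity)]
    ring
  rw [hG]
  have e1 : (17 * (((d + 2 : ℕ) : ℝ)) / (8 * Real.pi)) ^ (d + 2) =
      (17 * (d : ℝ) / (8 * Real.pi)) ^ d * (1 + 2 / (d : ℝ)) ^ d *
        (17 * ((d : ℝ) + 2) / (8 * Real.pi)) ^ 2 := by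
    rw [← mul_pow, pow_add]
    congr 1
    · congr 1
      push_cast
      field_simp
    · push_cast
      rfl
  have h2 : (1 + 2 / (d : ℝ)) ^ d ≤ Real.exp 2 := by
    have h3 : 1 + 2 / (d : ℝ) ≤ Real.exp (2 / (d : ℝ)) := by
      have := Real.add_one_le_exp (2 / (d : ℝ))
      linarith
    calc (1 + 2 / (d : ℝ)) ^ d ≤ Real.exp (2 / (d : ℝ)) ^ d :=
          pow_le_pow_left₀ (by positivity) h3 d
      _ = Real.exp 2 := by
          rw [← Real.exp_nat_mul]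
          congr 1
          field_simp
  have h4 : Real.exp 2 * (17 * ((d : ℝ) + 2) / (8 * Real.pi)) ^ 2 ≤ (((d : ℝ) + 2) / 2) ^ 4 := by
    have he : Real.exp 2 = Real.exp 1 ^ 2 := by
      rw [← Real.exp_nat_mul]; norm_num
    have he1 : Real.exp 1 < 2.7182818286 := Real.exp_one_lt_d9
    have hp : (3.14 : ℝ) < Real.pi := Real.pi_gt_d2
    have h5 : Real.exp 1 * (17 * ((d : ℝ) + 2) / (8 * Real.pi)) ≤ (((d : ℝ) + 2) / 2) ^ 2 := by
      rw [← mul_div_assoc, div_le_iff₀ (by positivity)]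
      have h6 : Real.exp 1 * (17 * ((d : ℝ) + 2)) ≤ 2.72 * (17 * ((d : ℝ) + 2)) :=
        mul_le_mul_of_nonneg_right (by linarith) (by positivity)
      refine h6.trans ?_
      have h7 : ((d : ℝ) + 2) / 2 * (((d : ℝ) + 2) * (4 * 3.14)) ≤
          (((d : ℝ) + 2) / 2) ^ 2 * (8 * Real.pi) := by
        have : (((d : ℝ) + 2) / 2) ^ 2 * (8 * Real.pi) =
            ((d : ℝ) + 2) / 2 * (((d : ℝ) + 2) * (4 * Real.pi)) := by ring
        rw [this]
        apply mul_le_mul_of_nonneg_left _ (by positivity)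
        apply mul_le_mul_of_nonneg_left _ (by positivity)
        linarith
      refine le_trans ?_ h7
      nlinarith
    calc Real.exp 2 * (17 * ((d : ℝ) + 2) / (8 * Real.pi)) ^ 2 =
          (Real.exp 1 * (17 * ((d : ℝ) + 2) / (8 * Real.pi))) ^ 2 := by rw [he]; ring
      _ ≤ ((((d : ℝ) + 2) / 2) ^ 2) ^ 2 := pow_le_pow_left₀ (by positivity) h5 2
      _ = (((d : ℝ) + 2) / 2) ^ 4 := by ring
  rw [e1]
  have hGp : 0 ≤ 4 * Real.Gamma ((d : ℝ) / 2 + 1) ^ 4 := by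
    have : 0 < Real.Gamma ((d : ℝ) / 2 + 1) := Real.Gamma_pos_of_pos (by positivity)
    positivity
  calc (17 * (d : ℝ) / (8 * Real.pi)) ^ d * (1 + 2 / (d : ℝ)) ^ d *
        (17 * ((d : ℝ) + 2) / (8 * Real.pi)) ^ 2
      ≤ (4 * Real.Gamma ((d : ℝ) / 2 + 1) ^ 4) * Real.exp 2 *
        (17 * ((d : ℝ) + 2) / (8 * Real.pi)) ^ 2 := by
        apply mul_le_mul_of_nonneg_right _ (by positivity)
        exact mul_le_mul h h2 (by positivity) hGp
    _ = (4 * Real.Gamma ((d : ℝ) / 2 + 1) ^ 4) *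
        (Real.exp 2 * (17 * ((d : ℝ) + 2) / (8 * Real.pi)) ^ 2) := by ring
    _ ≤ (4 * Real.Gamma ((d : ℝ) / 2 + 1) ^ 4) * (((d : ℝ) + 2) / 2) ^ 4 :=
        mul_le_mul_of_nonneg_left h4 hGp
    _ = 4 * ((((d : ℝ) + 2) / 2) * Real.Gamma ((d : ℝ) / 2 + 1)) ^ 4 := by ring

theorem qall : ∀ d : ℕ, 3 ≤ d → QQ d := by
  intro d
  induction d using Nat.strong_induction_on with
  | _ d ih =>
    intro hd
    by_cases h8 : 8 ≤ d
    · have h1 := qstep (d - 2) (by omega) (ih (d - 2) (by omega) (by omega))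
      have h2 : d - 2 + 2 = d := by omega
      rw [h2] at h1
      exact h1
    · interval_cases d
      · exact q3
      · exact q4
      · exact q5
      · exact q6
      · exact q7

theorem t_D_NUM : D_NUM := by
  intro d hd
  have hq := qall d hd
  unfold QQ at hq
  have hd3 : (3 : ℝ) ≤ (d : ℝ) := by exact_mod_cast hd
  have hd0 : (0 : ℝ) < d := by linarith
  have hpi := Real.pi_pos
  have hGp : 0 < Real.Gamma ((d : ℝ) / 2 + 1) := Real.Gamma_pos_of_pos (by positivity)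
  have hom : 0 < om d := by unfold om; positivity
  set x : ℝ := om d ^ (2 / (d : ℝ)) with hx
  have hx0 : 0 < x := Real.rpow_pos_of_pos hom _
  have hxi : om d ^ (-(2 / (d : ℝ))) = x⁻¹ := Real.rpow_neg hom.le _
  set w : ℝ := (2 : ℝ) ^ (-(2 / (d : ℝ))) with hw
  have hw0 : 0 < w := Real.rpow_pos_of_pos (by norm_num) _
  have h2 : (2 : ℝ) ^ (1 - 2 / (d : ℝ)) = 2 * w := by
    rw [sub_eq_add_neg, Real.rpow_add (by norm_num), Real.rpow_one]
  have hxd : x ^ d = om d ^ 2 := by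
    rw [hx, ← Real.rpow_natCast (om d ^ (2 / (d : ℝ))) d, ← Real.rpow_mul hom.le,
      div_mul_cancel₀ _ hd0.ne', ← Real.rpow_natCast (om d) 2]
    norm_num
  have hwd : w ^ d = 1 / 4 := by
    rw [hw, ← Real.rpow_natCast ((2 : ℝ) ^ (-(2 / (d : ℝ)))) d, ← Real.rpow_mul (by norm_num),
      neg_mul, div_mul_cancel₀ _ hd0.ne', Real.rpow_neg (by norm_num),
      show (2 : ℝ) ^ (2 : ℝ) = 2 ^ (2 : ℕ) by rw [← Real.rpow_natCast]; norm_num]
    norm_num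
  have hy : x ^ 2 * w ≤ 8 * Real.pi ^ 3 / (17 * d) := by
    rw [← pow_le_pow_iff_left₀ (by positivity) (by positivity) (show d ≠ 0 by omega)]
    have e1 : (x ^ 2 * w) ^ d = om d ^ 4 * (1 / 4) := by
      rw [mul_pow, hwd, ← pow_mul, mul_comm 2 d, pow_mul, hxd]
      ring
    have e2 : (8 * Real.pi ^ 3 / (17 * (d : ℝ))) ^ d =
        (Real.pi ^ 2) ^ d / (17 * (d : ℝ) / (8 * Real.pi)) ^ d := by
      rw [← div_pow]
      congr 1
      field_simp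
    have e3 : om d ^ 4 = (Real.pi ^ 2) ^ d / Real.Gamma ((d : ℝ) / 2 + 1) ^ 4 := by
      unfold om
      rw [div_pow, ← pow_mul, mul_comm d 4, pow_mul, sqrt4]
    rw [e1, e2, e3, div_mul_div_comm, mul_one]
    have hb : 0 < (17 * (d : ℝ) / (8 * Real.pi)) ^ d := by positivity
    have h5 : (Real.pi ^ 2) ^ d / (Real.Gamma ((d : ℝ) / 2 + 1) ^ 4 * 4) ≤
        (Real.pi ^ 2) ^ d / (17 * (d : ℝ) / (8 * Real.pi)) ^ d := by
      apply div_le_div_of_nonneg_left (by positivity) hb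
      linarith
    exact h5
  rw [hxi, h2]
  have hd2 : (d : ℝ) - 2 ≠ 0 := by linarith
  have e1 : 17 / 4 * (((d : ℝ) - 2) / (2 * Real.pi)) *
      (2 * ((d : ℝ) / ((d : ℝ) + 2)) * ((d : ℝ) / ((d : ℝ) - 2) * x)) * (2 * w) =
      (17 * d / (2 * Real.pi)) * (d / (d + 2)) * (x * w) := by
    field_simp
    ring
  rw [e1]
  have e2 : x * w ≤ 8 * Real.pi ^ 3 / (17 * d) * x⁻¹ := by
    rw [← div_eq_mul_inv, le_div_iff₀ hx0]
    calc x * w * x = x ^ 2 * w := by ring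
      _ ≤ _ := hy
  calc (17 * (d : ℝ) / (2 * Real.pi)) * (d / (d + 2)) * (x * w)
      ≤ (17 * (d : ℝ) / (2 * Real.pi)) * (d / (d + 2)) * (8 * Real.pi ^ 3 / (17 * d) * x⁻¹) :=
        mul_le_mul_of_nonneg_left e2 (by positivity)
    _ = 4 * Real.pi ^ 2 * d / (d + 2) * x⁻¹ := by
        field_simp
        ring

end Run7.h19.MY
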